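import Pool.Agent.Helper97.Ku.GoalsC

/-! Every branch of the generic tree is a row. -/

namespace Pool.Agent.Helper97.Ku.PkNB

open Set Pool.Agent.Helper97.Ku

theorem om_countable (γ : Om) : Countable {β : Om // β < γ} := by
  have h1 : (Iio (γ : Ordinal.{0})).Countable := by
    have h2 : (γ : Ordinal.{0}).card < Cardinal.aleph 1 := by
      have := γ.2
      rw [mem_Iio, Cardinal.lt_omega_iff_card_lt] at this
      exact this
    have h3 : (γ : Ordinal.{0}).card ≤ Cardinal.aleph0 := by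
      have h4 : Cardinal.aleph 1 = Order.succ (Cardinal.aleph0 : Cardinal.{0}) := by
        exact Cardinal.succ_aleph0.symm
      rw [h4] at h2
      exact Order.lt_succ_iff.mp h2
    rw [← Cardinal.le_aleph0_iff_set_countable, Cardinal.mk_Iio_ordinal]
    exact Cardinal.lift_le_aleph0.mpr h3
  have : Countable (Iio (γ : Ordinal.{0})) := h1.to_subtype
  refine Function.Injective.countable
    (f := fun β : {β : Om // β < γ} => (⟨(β.1 : Ordinal.{0}), β.2⟩ : Iio (γ : Ordinal.{0}))) ?_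
  intro x y h
  have := congrArg Subtype.val h
  exact Subtype.ext (Subtype.ext this)

theorem om_nomax (γ : Om) : ∃ δ : Om, γ < δ := by
  have h : Order.succ (γ : Ordinal.{0}) < Ordinal.omega 1 :=
    (Cardinal.isSuccLimit_omega 1).succ_lt γ.2
  exact ⟨⟨_, h⟩, Subtype.mk_lt_mk.mpr (Order.lt_succ _)⟩

theorem mem_bo {P : Prop} {r : Cond} (h : r ∈ (bo P : BA)) : P := by
  obtain ⟨_, _, hP, _⟩ := RO.mem_iSup.mp h r le_rfl
  exact hP

/-- The difference of `a` from the row `ξ` is decided. -/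
def Dif (a : Om → BA) (ξ : Kap) (r : Cond) : Prop :=
  ∃ β s, β < r.g ∧ r.v (.row ξ) = some (.nd s) ∧
    ((r ∈ a β ∧ β ∉ s) ∨ (r ∈ (a β)ᶜ ∧ β ∈ s))

theorem nd_of {r : Cond} {ξ : Kap} {x : Val} (h : r.v (.row ξ) = some x) :
    ∃ s, x = .nd s := by
  have h1 := r.v_ok _ _ h
  cases x with
  | nd s => exact ⟨s, rfl⟩
  | od η => exact absurd h1 (by simp [Ok])

theorem row_le {q r : Cond} (h : r ≤ q) {ξ : Kap} {s : Set Om}
    (hs : q.v (.row ξ) = some (.nd s)) :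
    ∃ s', r.v (.row ξ) = some (.nd s') ∧ s' ∩ Iio q.g = s := by
  obtain ⟨y, hy, hy'⟩ := h.2.2 _ _ hs
  obtain ⟨s', rfl⟩ := nd_of hy
  refine ⟨s', hy, ?_⟩
  simpa [Val.res] using hy'

theorem Dif.lower {a : Om → BA} {ξ : Kap} {q r : Cond} (h : r ≤ q) (hq : Dif a ξ q) :
    Dif a ξ r := by
  obtain ⟨β, s, hβ, hs, h1⟩ := hq
  obtain ⟨s', hs', h2⟩ := row_le h hs
  have h3 : β ∈ s ↔ β ∈ s' := by
    rw [← h2]
    exact ⟨fun h => h.1, fun h => ⟨h, hβ⟩⟩
  refine ⟨β, s', hβ.trans_le h.1, hs', ?_⟩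
  rcases h1 with h1 | h1
  · exact Or.inl ⟨RO.lower h h1.1, fun h4 => h1.2 (h3.mpr h4)⟩
  · exact Or.inr ⟨RO.lower h h1.1, h3.mp h1.2⟩

theorem nb : G_SIGX → G_CNTD → G_LIFT → G_ROW → G_ENS → G_NB := by
  intro SIGX CNTD LIFT ROW ENS G a p hp
  by_contra hcon
  push Not at hcon
  -- (*)
  have star : ∀ q, q ≤ p → ∀ ξ s, q.v (.row ξ) = some (.nd s) → ∃ r, r ≤ q ∧ Dif a ξ r := by
    intro q hq ξ s hs
    obtain ⟨β, hβ⟩ := hcon q hq ξ s hs
    have h1 : q ∉ a β ⇨ rowN ξ β ∨ q ∉ rowN ξ β ⇨ a β := by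
      by_contra h
      push Not at h
      exact hβ (RO.mem_inf.mpr h)
    have lift : ∀ r : Cond, ∃ r', r' ≤ r ∧ β < r'.g := by
      intro r
      obtain ⟨δ, hδ⟩ := om_nomax (max r.g β)
      obtain ⟨r', h1, h2, _⟩ := LIFT r δ ((le_max_left _ _).trans hδ.le)
      exact ⟨r', h1, by rw [h2]; exact (le_max_right _ _).trans_lt hδ⟩
    rcases h1 with h1 | h1
    · rw [RO.mem_himp] at h1
      push Not at h1
      obtain ⟨q1, hq1, ha, hn⟩ := h1
      obtain ⟨q2, hq2, hc⟩ := RO.not_mem_iff.mp hn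
      obtain ⟨r, hr, hg⟩ := lift q2
      obtain ⟨s', hs', _⟩ := row_le (hr.trans (hq2.trans hq1)) hs
      refine ⟨r, hr.trans (hq2.trans hq1), β, s', hg, hs', Or.inl ⟨RO.lower (hr.trans hq2) ha, ?_⟩⟩
      intro hb
      exact RO.not_mem_compl ((ROW G r).2.2.2.2.2.1 ξ s' β hs' hg hb) (RO.lower hr hc)
    · rw [RO.mem_himp] at h1
      push Not at h1
      obtain ⟨q1, hq1, ha, hn⟩ := h1
      obtain ⟨q2, hq2, hc⟩ := RO.not_mem_iff.mp hn
      obtain ⟨r, hr, hg⟩ := lift q2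
      obtain ⟨s', hs', _⟩ := row_le (hr.trans (hq2.trans hq1)) hs
      refine ⟨r, hr.trans (hq2.trans hq1), β, s', hg, hs', Or.inr ⟨RO.lower hr hc, ?_⟩⟩
      by_contra hb
      exact RO.not_mem_compl (RO.lower (hr.trans hq2) ha)
        ((ROW G r).2.2.2.2.2.2.1 ξ s' β hs' hg hb)
  -- the step
  have step : ∀ q : {q // q ≤ p}, ∃ r : {q // q ≤ p}, r.1 ≤ q.1 ∧ q.1.g < r.1.g ∧
      (∀ β, β < q.1.g → r.1 ∈ a β ∨ r.1 ∈ (a β)ᶜ) ∧
      (∀ ξ, Coord.row ξ ∈ q.1.supp → Dif a ξ r.1) := by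
    rintro ⟨q, hq⟩
    have : Countable {β : Om // β < q.g} := om_countable q.g
    have : Countable q.supp := q.supp_countable.to_subtype
    obtain ⟨r, hr, hrD⟩ := CNTD ({β : Om // β < q.g} ⊕ q.supp) q
      (fun n => match n with
        | .inl β => {r | r ∈ a β.1 ∨ r ∈ (a β.1)ᶜ}
        | .inr c => {r | r ≤ q ∧ ∀ ξ, c.1 = Coord.row ξ → Dif a ξ r})
      (by
        rintro (β | c) q' hq'
        · exact RO.mem_or_compl q'
        · rcases hc : c.1 with ξ | ⟨ξ, ν⟩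
          · have h1 : (Coord.row ξ) ∈ q.supp := by rw [← hc]; exact c.2
            obtain ⟨x, hx⟩ := Option.ne_none_iff_exists'.mp h1
            obtain ⟨s, rfl⟩ := nd_of hx
            obtain ⟨s', hs', _⟩ := row_le hq' hx
            obtain ⟨r, hr, hr'⟩ := star q' (hq'.trans hq) ξ s' hs'
            refine ⟨r, hr, hr.trans hq', ?_⟩
            intro ξ' hξ'
            rw [hc] at hξ'
            cases hξ'
            exact hr'
          · refine ⟨q', le_rfl, hq', ?_⟩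
            intro ξ' hξ'
            rw [hc] at hξ'
            cases hξ')
      (by
        rintro (β | c) q' r' hr' hq'
        · rcases hq' with h | h
          · exact Or.inl (RO.lower hr' h)
          · exact Or.inr (RO.lower hr' h)
        · exact ⟨hr'.trans hq'.1, fun ξ hξ => (hq'.2 ξ hξ).lower hr'⟩)
    obtain ⟨δ, hδ⟩ := om_nomax r.g
    obtain ⟨t, ht, htg, _⟩ := LIFT r δ hδ.le
    refine ⟨⟨t, (ht.trans hr).trans hq⟩, ht.trans hr, ?_, ?_, ?_⟩
    · simp only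
      rw [htg]
      exact hr.1.trans_lt hδ
    · intro β hβ
      rcases hrD (Sum.inl ⟨β, hβ⟩) with h | h
      · exact Or.inl (RO.lower ht h)
      · exact Or.inr (RO.lower ht h)
    · intro ξ hξ
      exact ((hrD (Sum.inr ⟨_, hξ⟩)).2 ξ rfl).lower ht
  choose nx hnx1 hnx2 hnx3 hnx4 using step
  let P : ℕ → {q // q ≤ p} := fun n => Nat.rec ⟨p, le_rfl⟩ (fun _ q => nx q) n
  have hP0 : P 0 = ⟨p, le_rfl⟩ := rfl
  have hPs : ∀ k, P (k + 1) = nx (P k) := fun k => rfl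
  have hdesc : ∀ k, (P (k + 1)).1 ≤ (P k).1 := fun k => by rw [hPs]; exact hnx1 (P k)
  have hanti : ∀ i j, i ≤ j → (P j).1 ≤ (P i).1 := by
    intro i j hij
    induction j, hij using Nat.le_induction with
    | base => exact le_rfl
    | succ j _ ih => exact (hdesc j).trans ih
  let A : Set Om := {β | ∃ k, (P k).1 ∈ a β}
  have hA1 : ∀ k β, (P k).1 ∈ (a β)ᶜ → β ∉ A := by
    rintro k β h ⟨j, hj⟩
    exact RO.not_mem_compl (RO.lower (hanti j (max j k) (le_max_left _ _)) hj)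
      (RO.lower (hanti k (max j k) (le_max_right _ _)) h)
  obtain ⟨q, hq1, hq2, hq3⟩ := SIGX (fun k => (P k).1) A (fun k => hdesc k)
    (fun k => by simp only [hPs]; exact hnx2 (P k))
    (by
      intro ξ k s hs
      refine ⟨k + 1, Nat.le_succ k, ?_⟩
      have h1 : Coord.row ξ ∈ (P k).1.supp := by
        simp only [Cond.supp, mem_ofPred_eq]
        rw [hs]
        simp
      have h2 := hnx4 (P k) ξ h1
      rw [← hPs] at h2
      obtain ⟨β, s', hβ, hs', h3⟩ := h2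
      intro h4
      rw [hs'] at h4
      simp only [Option.some.injEq, Val.nd.injEq] at h4
      rcases h3 with h3 | h3
      · exact h3.2 (by rw [h4]; exact ⟨⟨k + 1, h3.1⟩, hβ⟩)
      · rw [h4] at h3
        exact hA1 (k + 1) β h3.1 h3.2.1)
  have hqp : q ≤ p := hq1 0
  have hbr : q ∈ brV G a := RO.lower hqp hp
  have hbr1 := RO.mem_iInf.mp hbr q.g
  obtain ⟨r, hr, k, hk⟩ := RO.mem_iSup.mp hbr1 q le_rfl
  have hkw : k < G.w0 := mem_bo hk.1
  have hrow := ((ROW G r).2.2.2.2.2.2.2.2.1 a q.g k hr.1 hkw).mp hk.2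
  have hlev : lev r q.g = q.S := by
    rw [(ROW G q).2.2.1 r q.g hr le_rfl]
    exact (ROW G q).2.1
  rw [hlev] at hrow
  have hen := (ENS G q.S q.S_ct q.S_ne).1 k hkw
  have heq : enS G q.S k = A ∩ Iio q.g := by
    apply Set.Subset.antisymm
    · intro β hβ
      have hβg : β < q.g := q.S_sub _ hen hβ
      refine ⟨?_, hβg⟩
      obtain ⟨m, hm⟩ := hq2 β hβg
      have h1 := (hrow β hβg).1 hβ
      have h2 := hnx3 (P m) β hm
      rw [← hPs] at h2
      rcases h2 with h2 | h2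
      · exact ⟨m + 1, h2⟩
      · exact absurd h1 (fun h => RO.not_mem_compl h (RO.lower (hr.trans (hq1 (m + 1))) h2))
    · rintro β ⟨⟨j, hj⟩, hβg⟩
      by_contra hn
      exact RO.not_mem_compl (RO.lower (hr.trans (hq1 j)) hj) ((hrow β hβg).2 hn)
  exact hq3 (heq ▸ hen)

end Pool.Agent.Helper97.Ku.PkNB
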