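import Pool.Agent.Helper97.Ku.GoalsD

/-! There are Kurepa trees in the second-order sense. -/

namespace Pool.Agent.Helper97.Ku.PkNE

open Set Pool.Agent.Helper97.Ku

theorem exF_val (G : Grd Om) (f : ℕ) (φ : SO) (i : ℕ → Om) (e : ℕ → FN Om BA) :
    (SO.exF f φ).val (M0 G BA) i e = ⨆ x, φ.val (M0 G BA) i (Function.update e f x) := by
  simp [SO.exF, SO.val, compl_iInf]

theorem ne : G_TD → G_TT → G_TB → G_SYN1 → G_NE := by
  intro TDh TT TB SYN G i e
  obtain ⟨t⟩ := TDh G
  rw [exF_val, eq_top_iff]
  refine le_trans ?_ (le_iSup (fun x => SO.kur.val (M0 G BA) i (Function.update e 0 x)) t.x)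
  intro p _
  have h1 : SO.kur.val (M0 G BA) i (Function.update e 0 t.x) =
      (SO.exF 1 SO.reg).val (M0 G BA) i (Function.update e 0 t.x) ⊓
      ⨅ z, (SO.exF 3 (.and SO.br (.neg SO.lst))).val (M0 G BA) i
        (Function.update (Function.update e 0 t.x) 2 z) := rfl
  rw [h1, RO.mem_inf]
  constructor
  · rw [exF_val]
    refine le_iSup (fun x => SO.reg.val (M0 G BA) i
      (Function.update (Function.update e 0 t.x) 1 x)) (gfn fun i => (t.z i).1) p ?_
    rw [(SYN G i _).1 p]
    exact TT G t p
  · rw [RO.mem_iInf]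
    intro z
    rw [exF_val]
    have h2 : ∀ b : FN Om BA, (SO.and SO.br (.neg SO.lst)).val (M0 G BA) i
        (Function.update (Function.update (Function.update e 0 t.x) 2 z) 3 b) =
        brFV G t.x b ⊓ (lstV G z b)ᶜ := by
      intro b
      have h3 := (SYN G i (Function.update (Function.update
        (Function.update e 0 t.x) 2 z) 3 b)).2.1
      have h4 := (SYN G i (Function.update (Function.update
        (Function.update e 0 t.x) 2 z) 3 b)).2.2.1
      have h5 : (SO.and SO.br (.neg SO.lst)).val (M0 G BA) i
        (Function.update (Function.update (Function.update e 0 t.x) 2 z) 3 b) =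
        SO.br.val (M0 G BA) i
          (Function.update (Function.update (Function.update e 0 t.x) 2 z) 3 b) ⊓
        (SO.lst.val (M0 G BA) i
          (Function.update (Function.update (Function.update e 0 t.x) 2 z) 3 b))ᶜ := rfl
      rw [h5, h3, h4]
      rfl
    simp only [h2]
    exact TB G t p z

end Pool.Agent.Helper97.Ku.PkNE
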